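import Pool.Agent.X325.OB.IsoC

/-!
# Gauduchon metrics: isotrivial fibrations over towers over log canonical arrangements

Let `X` be a projective manifold (or a projective variety with canonical singularities) and

  `X ⇢ W_l ⇢ ... ⇢ W_1 ⇢ W_0 = P^{n_1} × ... × P^{n_m}`, `l ≥ 0`,

dominant rational maps. Suppose:

* (the base) in each factor there are hyperplanes `ℓ i k = 0`, in any position, with weights `wt i k
  ≥ 0` such that the arrangement is log canonical (the sum of the weights of hyperplanes with a
  common point is at most the codimension of their intersection) and `∑ k, wt i k ≥ n i + 1`: a log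
  Calabi-Yau arrangement if `∑ k, wt i k = n i + 1`, and one of log general type otherwise. If the
  `v i k` are the multiplicities of the hyperplanes at a prime divisor `P` of `X`, not all zero,
  then `1 ≤ ∑ i, (mx_i - ∑ k, wt i k * v i k)`, where `mx_i` is the greatest sum of `n i + 1` of the
  `v i k` whose hyperplanes have no common point, with strict inequality if a distinguished
  hyperplane `k0 i` of a log Calabi-Yau factor `i` in `I` has a positive multiplicity at `P`. Here
  `I` is any set of factors (for instance, the set of the factors of log general type, or the empty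
  set: then there are no strict inequalities);
* (the steps of the tower) for each `i < l` one of the following:
  * (orbifold) the fibres of `W_{i+1}` over `W_i`, *with the multiplicities of the fibres of `X`
    over `W_{i+1}`*, correspond to moving log canonical arrangements, of log Kodaira dimension `lam
    i ≥ 0` (`OrbifoldFibres`);
  * (constant) the fibres of `W_{i+1}` over `W_i`, with the multiplicities of the fibres of `X` over
    `W_{i+1}`, correspond to one orbifold `(V_i, a_i)` of Kodaira dimension at least `lam i ≥ 0`:
    there are a variety `X'` with a generically finite map `X' ⇢ X` and a rational map `X' ⇢ V_i`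
    which is constant on the fibres of `X' ⇢ W_{i+1}` and dominant on the fibres of `X' ⇢ W_i`; `a_i
    (p)` is a nonnegative function (the log discrepancy) of places of `V_i`, and at the places `Q`
    over `P` (with ramification index `ε`) which lie over `p` (with ramification index `ν`) one has
    `ε ≤ ν a_i (p)` (`ConstantFibres`). For instance `V_i` is a smooth projective variety, `a_i =
    1`, and the fibres of `W_{i+1}` over `W_i` are birational to `V_i`;
* (the fibres of `X` over `W_l`) after a generically finite base change `X'` of `X` the fibres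
  dominate, or are birational to, a fixed smooth projective variety `F`.

Then `κ(X) ≥ ∑ i ∈ I, n i + ∑ i, lam i + κ(F)`. If the fibres are birational to `F` (after a base
change), and `F` is uniruled or has `κ(F) ≥ 0`, then the following are equivalent: `κ(X) = -∞`; `K_X`
is not pseudo-effective; `X` is uniruled; `κ(F) = -∞`; `K_F` is not pseudo-effective; `F` is uniruled.
If `X` is a manifold this means that `X` carries a Gauduchon metric of positive total scalar curvature
if and only if `κ(X) = -∞`: Q1 for `F` implies Q1 for `X`. (It is known for `dim F ≤ 3`; the dimension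
of `X` is arbitrary.)

`KodGe ℂ K w (fun _ => False) κ`: the Kodaira dimension is at least `κ`; `Psef`: the canonical
divisor is pseudo-effective (`Pool/Agent/W602/GT`); `IsUniruled`: `Pool/Agent/W619/PQ/Defs.lean`. The
other definitions are those of `Pool/Agent/X180/OP/CanDefs`, `X180/OD/Defs` and
`Pool/Agent/Y191/LcForm`, `LcLow`.
-/

set_option autoImplicit false

open FF Pool.Agent.W602.GT Pool.Agent.Y172 Pool.Agent.Y191
open Pool.Agent.W619.PQ (IsUniruled)
open Pool.Agent.X180.OP (IsCanonicalVariety)
open Pool.Agent.X180.OD (IsTower)

namespace Pool.Agent.Results.MP_23b606_ag.IsotrivialFibres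

variable {m : ℕ} {n q : Fin m → ℕ}

/-- The base: the hyperplanes `ℓ i k = 0` in the projective space of dimension `n i` have weights
`wt i k ≥ 0` with sum at least `n i + 1`, and the arrangements are log canonical (`LcArr`, over the
field of constants). -/
def IsBase (ℓ : ∀ i, Fin (q i) → Fin (n i + 1) → ℂ) (wt : ∀ i, Fin (q i) → ℚ) : Prop :=
  (∀ i, (∀ k, 0 ≤ wt i k) ∧ (n i + 1 : ℚ) ≤ ∑ k, wt i k) ∧
    LcArr (⊥ : IntermediateField ℂ ℂ) ℓ wt

/-- The affine coordinates `x i (j + 1) / x i 0` of the points with the homogeneous coordinates
`x i`. -/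
def affine {K : Type} [Field K] (x : ∀ i, Fin (n i + 1) → K) (b : (i : Fin m) × Fin (n i)) : K :=
  x b.1 b.2.succ / x b.1 0

/-- The multiplicities over the base, at the prime divisors `P` of `X`: if the hyperplanes `ℓ i k`
have the multiplicities `v i k` at `P` (their orders are `a i + v i k`, where `a i` is the minimum
of the orders of the coordinates `x i j`), not all zero, then `1 ≤ ∑ i, (mx_i - ∑ k, wt i k * v i
k)`, with strict inequality if the multiplicity of the distinguished hyperplane `k0 i` is positive
for some `i ∈ I` with `∑ k, wt i k = n i + 1`. -/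
def Multiplicities {K : Type} [Field K] [Algebra ℂ K] {N : ℕ} (y : Fin (N + 1) → K)
    (ℓ : ∀ i, Fin (q i) → Fin (n i + 1) → ℂ) (wt : ∀ i, Fin (q i) → ℚ)
    (x : ∀ i, Fin (n i + 1) → K) (I : Finset (Fin m)) (k0 : ∀ i, Fin (q i)) : Prop :=
  ∀ P, IsPrimeDivisor y P → ∀ (a : Fin m → ℤ) (v : ∀ i, Fin (q i) → ℕ),
    (∀ i, MOrd P (fun k j => algebraMap ℂ K (ℓ i k j)) (x i) (a i) (v i)) → (∃ i, v i ≠ 0) →
    1 ≤ ∑ i, ((mx ℓ i (v i) : ℚ) - ∑ k, wt i k * v i k) ∧
      ((∃ i ∈ I, ∑ k, wt i k = (n i + 1 : ℚ) ∧ v i (k0 i) ≠ 0) →
        1 < ∑ i, ((mx ℓ i (v i) : ℚ) - ∑ k, wt i k * v i k))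

section

variable {K K' : Type} [Field K] [Field K'] [Algebra ℂ K] [Algebra ℂ K'] [Algebra K K']
  [IsScalarTower ℂ K K']

/-- `K'` is the function field of a component `X'` of the base change of `X` to a variety `W'` with a
generically finite map to `W`, where `L` is the function field of `W`: it is generated over `K` by an
element `α` which is algebraic over `L`. -/
def BaseChange (L : IntermediateField ℂ K) (α : K') : Prop :=
  IsAlgebraic L α ∧ IntermediateField.adjoin K {α} = ⊤

/-- The fibres of `X' ⇢ W` dominate the variety `F` with the function field `M`: the elements of `K'`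
are algebraic over the field which is generated by `M` and the elements which are algebraic over
`L`. For `dim F = dim X - dim W` this means that `X'` has a generically finite rational map to
`W'' × F` over `W`, where `W''` has a generically finite map to `W`. -/
def Dominates (L : IntermediateField ℂ K) (M : IntermediateField ℂ K') : Prop :=
  ∀ z : K', IsAlgebraic (IntermediateField.adjoin ℂ ({a : K' | IsAlgebraic L a} ∪ M)) z

/-- `X'` is birational to `W'' × F`: the field `K'` is generated by `M` and the elements which are
algebraic over `L`. -/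
def IsProduct (L : IntermediateField ℂ K) (M : IntermediateField ℂ K') : Prop :=
  IntermediateField.adjoin ℂ ({a : K' | IsAlgebraic L a} ∪ M) = ⊤

end

/-- Let `ℓ i` be log canonical arrangements of hyperplanes with weights `wt i k` with sums at least
`n i + 1`, as in `IsBase`, and `I` a set of factors. Let `X` be a projective variety with canonical
singularities, with function field `K`, and `X ⇢ W_l ⇢ ... ⇢ W_0` a tower over the product `W_0` of
the projective spaces, given by homogeneous coordinates `x i`, whose steps (orbifold fibrations or
constant orbifolds) have the (log) Kodaira dimensions `lam i ≥ 0`; let `f` be the relative dimension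
of `X ⇢ W_l`, and suppose that the condition `Multiplicities` holds. Let `X'` be a base change of
`X` to a variety with a generically finite map to `W_l` and `F` a smooth projective variety of
dimension `f` with function field `M`.

**(1)** If the fibres of `X'` dominate `F` and `κ(F) ≥ h ≥ 0` then
`κ(X) ≥ ∑ i ∈ I, n i + ∑ i, lam i + h`.

**(2)** If `X'` is birational to a product with `F` and `F` is uniruled then `X` is uniruled.

**(3)** If `X'` is birational to a product with `F` and `F` is uniruled or has Kodaira dimension at
least `0` then the following are equivalent: `κ(X) = -∞`; `K_X` is not pseudo-effective; `X` is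
uniruled; `κ(F) = -∞`; `K_F` is not pseudo-effective; `F` is uniruled. -/
theorem result (ℓ : ∀ i, Fin (q i) → Fin (n i + 1) → ℂ) (wt : ∀ i, Fin (q i) → ℚ)
    (hℓ : IsBase ℓ wt) (I : Finset (Fin m)) (k0 : ∀ i, Fin (q i))
    (K : Type) [Field K] [Algebra ℂ K] [Algebra.EssFiniteType ℂ K] (N l f : ℕ)
    (E : Fin (l + 1) → IntermediateField ℂ K) (D : Fin (l + 1) → ℕ) (e lam : Fin l → ℕ)
    (y : Fin (N + 1) → K) (hy : IsCanonicalVariety y (D (Fin.last l) + f))
    (x : ∀ i, Fin (n i + 1) → K)
    (hx0 : ∀ i, x i 0 ≠ 0) (hind : AlgebraicIndependent ℂ (affine x))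
    (hE0 : E 0 = IntermediateField.adjoin ℂ (Set.range (affine x)))
    (hm : Multiplicities y ℓ wt x I k0)
    (hT : IsTower {P | IsPrimeDivisor y P} (fun _ => 0) E D e lam)
    (K' : Type) [Field K'] [Algebra ℂ K'] [Algebra K K'] [IsScalarTower ℂ K K']
    (α : K') (hα : BaseChange (E (Fin.last l)) α)
    (M : IntermediateField ℂ K') [Algebra.EssFiniteType ℂ M] (hM : Algebra.trdeg ℂ M = f) :
    (Dominates (E (Fin.last l)) M → ∀ h : ℕ, KodGe ℂ M f (fun _ => False) h →
      KodGe ℂ K (D (Fin.last l) + f) (fun _ => False) (∑ i ∈ I, n i + ∑ i, lam i + h)) ∧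
    (IsProduct (E (Fin.last l)) M → IsUniruled ℂ M f → IsUniruled ℂ K (D (Fin.last l) + f)) ∧
    (IsProduct (E (Fin.last l)) M → IsUniruled ℂ M f ∨ KodGe ℂ M f (fun _ => False) 0 →
      [¬ KodGe ℂ K (D (Fin.last l) + f) (fun _ => False) 0,
        ¬ Psef ℂ K (D (Fin.last l) + f) (fun _ => False),
        IsUniruled ℂ K (D (Fin.last l) + f), ¬ KodGe ℂ M f (fun _ => False) 0,
        ¬ Psef ℂ M f (fun _ => False), IsUniruled ℂ M f].TFAE) :=
  Pool.Agent.X325.OB.iso_all hy hT (fun lam' h0 => (Pool.Agent.X325.OB.lc_hbase
    (fun i => (hℓ.1 i).1) (fun i => (hℓ.1 i).2) hℓ.2 hy hx0 hind hE0 I k0 hm hT lam' h0).2)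
    hα.1 hα.2 M hM

end Pool.Agent.Results.MP_23b606_ag.IsotrivialFibres
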