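import Pool.Agent.X180.OJ.Top

/-!
# Nonvanishing for towers of products of constant orbifolds and moving arrangements

Let `X` be a projective manifold (or a projective variety with canonical singularities) and

  `X ⇢ W_l ⇢ ... ⇢ W_1 ⇢ W_0`, `l ≥ 0`,

dominant rational maps. Suppose:

* (the base) the orbifold base of `X ⇢ W_0` (Campana) has Kodaira dimension at least `k ≥ 0`: for some
  `m > 0` there are `m`-canonical forms on `W_0`, not all zero, with `k` algebraically independent
  ratios, with poles of order at most `m (1 - 1 / ν)` at the places `p` of the function field of `W_0`
  below a prime divisor of `X` with multiplicity `ν`. (`W_0` may be rational, or a point; then `k = 0`.)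
* (the steps of the tower) for each `i < l` the fibres of `W_{i+1}` over `W_i`, of dimension `e_i`,
  *with the multiplicities of the fibres of `X` over `W_{i+1}`*, correspond to the product of one
  orbifold `V_i` (which does not depend on the point of `W_i`) and of moving log canonical
  arrangements: there are a variety `X'` with a generically finite map `X' ⇢ X` (ramified anywhere)
  and a rational map of `X'` to `V_i × P^{r_1} × ... × P^{r_c}`, `r_j ≥ 1`, which is dominant on the
  fibres of `X'` over `W_i`, and whose fibres (over `W_i`) are, up to finite maps, the fibres of
  `X' ⇢ W_{i+1}`; `a (p) ≥ 0` is the log discrepancy of an orbifold divisor at the places `p` of `V_i`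
  in the image of the prime divisors of `X`, and the Kodaira dimension of `(V_i, a)` is at least
  `h_i ≥ 0`; in each `P^{r_j}` there are any hyperplanes `A j k = 0`, in any position, which move with
  the point of a variety finite over `W_i`, with weights `w j k ≥ 0`, such that the arrangement is log
  canonical (the sum of the weights of hyperplanes with a common point is at most the codimension of
  their intersection) and `∑ k, w j k ≥ r_j + 1`. Let `Q` be a place of the function field of `X'` over
  a prime divisor `P` of `X` which dominates `W_i` but not `W_{i+1}`, with ramification index `ε`, let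
  `e j k` be the multiplicities of the hyperplanes at `Q`, and
  `R = ∑ (mx_j - ∑ w j k e j k)`, where `mx_j` is the greatest sum of `r_j + 1` of the `e j k`
  whose hyperplanes have no common point. Then `ε ≤ ν a (p) + R` if `Q` lies over the place `p` of
  `V_i`, with ramification index `ν`; and if `Q` dominates `V_i` then `ε ≤ R`, or `ε ≤ 1` if all `e j k`
  are zero. Let `λ_i` be the sum of `h_i` and of the `r_j` with `∑ k, w j k > r_j + 1`.
* (the fibres of `X` over `W_l`) there is a correspondence `X'` as above between `X` and a relative
  product `P^{r_1} × ... × P^{r_c}` over `W_l` (`c = 0` is allowed: then `X ⇢ W_l` is generically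
  finite), with log canonical moving hyperplane arrangements with weights in `[0, 1]` (with any sum)
  and `ε ≤ R` (`ε ≤ 1`, if all `e j k` are zero) at the prime divisors of `X` which dominate `W_l`; and
  if `Q` is a place of the function field of `X'` over a prime divisor of `P^{r_1} × ... × P^{r_c}` over
  `W_l`, with ramification index `ρ`, and with ramification index `ε` over `X`, then
  `ρ - ε ≤ ∑ w j k e j k`. Let `λ` be the sum of the `r_j` with `∑ k, w j k > r_j + 1`.

Then `K_X` is pseudo-effective if and only if `κ(X) ≥ 0`, if and only if `∑ k, w j k ≥ r_j + 1` for all
`j` (for the fibres over `W_l`), and then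

  `κ(X) ≥ k + ∑ λ_i + λ`.

So if `κ(X) = -∞` then `K_X` is not pseudo-effective; if `X` is a manifold this means, by the known
equivalences, that `X` carries a Gauduchon metric of positive total scalar curvature, and that `X` is
uniruled. If moreover `k = dim W_0` and `λ_i = e_i` for all `i`, then `κ(X) = ν(X) = dim W_l + λ` in the
first case.

For instance `W_{i+1}` may be a quotient of the product of a variety `V_i` and of a family of double
covers of `P^1` over a covering of `W_i`, by a finite group which acts diagonally, with fixed points:
at the divisors over the fixed locus neither the places of `V_i` nor the multiplicities of the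
hyperplanes suffice, but the sum of the two terms in `ε ≤ ν a (p) + R` does.

The language and the definitions of `Pool.Agent.Y172` are used: `X` is given by the homogeneous
coordinates `y` of its generic point, with values in the function field `K` of `X`; the prime divisors
of `X` are places `P` of `K`, `P.ord` is the order along `P`; `kodairaDim` and `numericalDim` are the
literal definitions of the Kodaira and of the numerical dimension by means of the dimensions of the
spaces of sections of `m K_X` and of `m K_X + A`. `E i` is the function field of `W_i`. Definitions:
`Pool/Agent/X180/OD/BaseDefs` (`BaseKodGe`), `OD/Defs` (`OrbifoldKodGe`), `OJ/Defs` (`JointFibres`,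
`IsTower`), `OP/CanDefs`.

Proof: the forms of a step are products of the pull backs of the forms of `V_i`, of determinants of
logarithmic derivatives of the linear forms, and of one joint Wronskian of the coordinates of `V_i` and
of the `P^{r_j}`; locally, at `Q`, one compares with the arrangement enlarged by a simplex of
logarithmic coordinates of `V_i` at `p` (`Pool.Agent.X180.OJ.joint_est`). The coefficients are
algebraic over the function field of `W_{i+1}`, and their norms are estimated at the prime divisors of
`X` (`Pool.Agent.X180.OJ.joint_part`). The forms of the steps and of the orbifold base are multiplied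
along adapted regular vector fields. If some `∑ k, w j k < r_j + 1` the traces of the pull backs to `X'`
of the sections of `m K_X + A` vanish for large `m`.
-/

set_option autoImplicit false

open FF Pool.Agent.W602.GT Pool.Agent.Y172 Pool.Agent.Y191 Pool.Agent.X180.OP
open Pool.Agent.X180.OJ
open Pool.Agent.X180.OD (BaseKodGe orb_base)

namespace Pool.Agent.Results.MP_23b606_ag.JointTowersOverOrbifoldBases

/-- **Nonvanishing.** Let `X` be a projective variety with canonical singularities and
`X ⇢ W_l ⇢ ... ⇢ W_0` a tower of dominant rational maps such that the orbifold base of `X ⇢ W_0` has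
Kodaira dimension at least `k`, the steps are as in `JointFibres` for the prime divisors of `X`, of
dimensions `e i` and log Kodaira dimensions `lam i`, and the fibres of `X` over `W_l` are as in
`CanonicalFibres`. If `r j + 1 ≤ ∑ i, w j i` for all `j` then `κ(X) ≥ k + ∑ i, lam i + big`; otherwise
`κ(X) = ν(X) = -∞`, so that `K_X` is not pseudo-effective. If `k = dim W_0` and `lam i = e i` for all
`i`, then moreover `κ(X) = ν(X) = dim W_l + big` in the first case. -/
theorem result (K : Type) [Field K] [Algebra ℂ K] (N l c k : ℕ)
    (E : Fin (l + 1) → IntermediateField ℂ K) (D : Fin (l + 1) → ℕ) (e lam : Fin l → ℕ)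
    (r s : Fin c → ℕ) (y : Fin (N + 1) → K)
    (hy : IsCanonicalVariety y (D (Fin.last l) + ∑ j, r j)) [Algebra.EssFiniteType ℂ (E 0)]
    (hY : BaseKodGe {P | IsPrimeDivisor y P} (E 0) (D 0) k)
    (hT : IsTower {P | IsPrimeDivisor y P} (fun _ => 0) E D e lam)
    (w : ∀ j, Fin (s j) → ℚ) (hF : CanonicalFibres y (E (Fin.last l)) r s w) :
    CanonicalNonvanishing y (D (Fin.last l) + ∑ j, r j) (k + ∑ i, lam i + big r s w) r s w ∧
      (k = D 0 → (∀ i, lam i = e i) →
        CanonicalAbundance y (D (Fin.last l) + ∑ j, r j) (D (Fin.last l)) r s w) := by
  have hn : D (Fin.last l) + ∑ j, r j = D 0 + (∑ i, e i + ∑ j, r j) := by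
    rw [Pool.Agent.X180.TP.dims fun i => (hT.2 i).2.1, add_assoc]
  have hK : Algebra.trdeg ℂ K = (D 0 + (∑ i, e i + ∑ j, r j) : ℕ) := by
    rw [← hn]
    exact hy.2.1
  refine ⟨dcan_non hy hT hF fun lam' h0 => orb_base hK (hT.1 0) hY h0, fun hk hle => ?_⟩
  subst hk
  exact dcan_ab hy hT hle hF fun lam' h0 => orb_base hK (hT.1 0) hY h0

end Pool.Agent.Results.MP_23b606_ag.JointTowersOverOrbifoldBases
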