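import Pool.Agent.X180.OT.Small

/-!
# Nonvanishing for orbifold towers over arbitrary subvarieties of projective space

Let `X` be a projective manifold (or a projective variety with canonical singularities) and

  `X ⇢ W_l ⇢ ... ⇢ W_1 ⇢ W_0 ⊂ P^v`, `l ≥ 0`,

dominant rational maps, where `W_0` is any subvariety of `P^v`, of dimension `D 0`. Suppose:

* (the base) `ℓ i = 0`, `i < q`, are hyperplanes in general position which do not contain `W_0`, such
  that the points `ℓ i` impose independent conditions on the forms of degree `d`, with weights
  `wt i ≥ 0` whose sum is at least `(D 0 + 1) γ`, `γ = (v - D 0 + d).choose (v - D 0)`; if `e i` is the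
  multiplicity of the hyperplane `ℓ i = 0` at the prime divisor `P` of `X` (for the divisors without
  fixed component which the map defines) then `min (#{i | e i ≠ 0}) γ ≤ ∑ i, (1 - wt i) e i`. (The
  sum of the weights may be equal to `(D 0 + 1) γ`; for instance, if `W_0 = P^{D 0}`, `γ = 1`, the
  orbifold base may be of Calabi-Yau type.)
* (the steps of the tower, of any log Kodaira dimension `≥ 0`) for each `i < l` the fibres of
  `W_{i+1}` over `W_i`, *with the multiplicities of the fibres of `X` over `W_{i+1}`*, correspond to
  moving log canonical arrangements: there is a variety `X'` with a generically finite map `X' ⇢ X`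
  (ramified anywhere) and a rational map over `W_i` of `X'` to a relative product of projective spaces
  `P^{r_1} × ... × P^{r_c}`, `r_j ≥ 1`, whose fibres are, up to finite maps, the fibres of
  `X' ⇢ W_{i+1}`; in each `P^{r_j}` there are any hyperplanes `A j k = 0`, in any position, which move
  with the point of a variety finite over `W_i`, with weights `w j k ≥ 0`, such that the arrangement
  is log canonical (the sum of the weights of hyperplanes with a common point is at most the
  codimension of their intersection) and `∑ k, w j k ≥ r_j + 1`. If `Q` is a place of the function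
  field of `X'` over a prime divisor `P` of `X` which dominates `W_i` but not `W_{i+1}`, with
  ramification index `ε`, and `e j k` are the multiplicities of the hyperplanes at `Q`, not all zero,
  then `ε ≤ ∑ (mx_j - ∑ w j k e j k)`, where `mx_j` is the greatest sum of `r_j + 1` of the `e j k`
  whose hyperplanes have no common point (`ε ≤ 1`, if all `e j k` are zero). Let `λ_i` be the sum of
  the `r_j` with `∑ k, w j k > r_j + 1`;
* (the fibres of `X` over `W_l`) there is a correspondence `X'` as above between `X` and a relative
  product `P^{r_1} × ... × P^{r_c}` over `W_l`, with log canonical moving hyperplane arrangements with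
  weights in `[0, 1]` (with any sum) and the same condition at the prime divisors of `X` which
  dominate `W_l`; and if `Q` is a place of the function field of `X'` over a prime divisor of
  `P^{r_1} × ... × P^{r_c}` over `W_l`, with ramification index `ρ`, and with ramification index `ε`
  over `X`, then `ρ - ε ≤ ∑ w j k e j k`. Let `λ` be the sum of the `r_j` with
  `∑ k, w j k > r_j + 1`.

Then `K_X` is pseudo-effective if and only if `κ(X) ≥ 0`, if and only if `∑ k, w j k ≥ r_j + 1` for all
`j` (for the fibres over `W_l`), and then

  `κ(X) ≥ ∑ λ_i + λ`, and `κ(X) ≥ dim W_0 + ∑ λ_i + λ` if `∑ wt i > (D 0 + 1) γ`.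

So if `κ(X) = -∞` then `K_X` is not pseudo-effective; if `X` is a manifold this means, by the known
equivalences, that `X` carries a Gauduchon metric of positive total scalar curvature, and that `X` is
uniruled. For instance all the `W_i` may be rational, say iterated bundles of projective spaces, with
multiple fibres of `X` over divisors which dominate `W_{i-1}`, such that all the orbifold fibres have
Kodaira dimension `0`; the pseudo-effectivity of `K_X` is not obvious in this case.

The language and the definitions of `Pool.Agent.Y172` are used: `X` is given by the homogeneous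
coordinates `y` of its generic point, with values in the function field `K` of `X`; the prime divisors
of `X` are places `P` of `K`, `P.ord` is the order along `P`. `OrdData P ℓ b a μ`: the order of
`ℓ i (b)` is `a + μ i`, where `a` is the minimum of the orders of the `b j`. `numericalDim` is `⊥` if
and only if `m K_X + A` has no sections for almost all `m`. `E i` is the function field of `W_i`.
Definitions: `Pool/Agent/X180/TP/Defs`, `Pool/Agent/X180/OT/Defs`.

Proof: for a step `Z' → Z` of the tower the products of determinants of logarithmic derivatives of the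
linear forms are forms along the fibres of `X' → Z`, of degree `dim Z' - dim Z`; their coefficients
with respect to a basis of the vector fields of `Z'` over `Z` are algebraic over the function field of
`Z'`, and their norms are estimated at the prime divisors of `X` (`Pool.Agent.X180.Orb`). The forms of
the steps are multiplied with adapted regular vector fields, and with the form of the base of
`Pool.Agent.Y191.small_fib`.
-/

set_option autoImplicit false

open FF Pool.Agent.W602.GT Pool.Agent.Y172 Pool.Agent.Y191 Pool.Agent.X180.OT
open Pool.Agent.X180.TP (IsCanonicalVariety Fibres big Nonvanishing)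

namespace Pool.Agent.Results.MP_23b606_ag.OrbifoldTowers

section

variable {K : Type} [Field K] [Algebra ℂ K] {N : ℕ}

/-- The `b j` are the coordinates of a rational map whose image has dimension `p` and is not
contained in one of the hyperplanes `ℓ i = 0`. -/
def IsMap {v q : ℕ} (ℓ : Fin q → Fin (v + 1) → ℂ) (b : Fin (v + 1) → K) (p : ℕ) : Prop :=
  (∀ i, lf (ℓ i) b ≠ 0) ∧ (∃ j, b j ≠ 0) ∧ Algebra.trdeg ℂ (RF ℂ b) = p

/-- The condition on the multiplicities of the hyperplanes at the prime divisors of `X`. -/
def SmallMultiplicities {v q : ℕ} (y : Fin (N + 1) → K) (ℓ : Fin q → Fin (v + 1) → ℂ)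
    (b : Fin (v + 1) → K) (wt : Fin q → ℚ) (γ : ℕ) : Prop :=
  ∀ P, IsPrimeDivisor y P → ∀ (a : ℤ) (μ : Fin q → ℕ), OrdData P ℓ b a μ →
    ((min (Finset.univ.filter fun i => μ i ≠ 0).card γ : ℕ) : ℚ) ≤ ∑ i, (1 - wt i) * μ i

end

/-- **Nonvanishing.** Let `X` be a projective variety with canonical singularities, `b` the
coordinates of a rational map `X ⇢ P^v` whose image is the bottom `W_0`, of dimension `D 0`, of an
orbifold tower `X ⇢ W_l ⇢ ... ⇢ W_0`, of which the steps have dimensions `e i` and log Kodaira
dimensions `lam i`, and let the fibres of `X` over `W_l` be as in `Fibres`. Let `ℓ i = 0` be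
hyperplanes in general position which do not contain `W_0` and impose independent conditions on the
forms of degree `d`, with weights `wt i ≥ 0` whose sum is at least `(D 0 + 1) * γ`, where
`γ = (v - D 0 + d).choose (v - D 0)`, and let the multiplicities `μ i` satisfy
`min (#{i | μ i ≠ 0}) γ ≤ ∑ i, (1 - wt i) μ i` at all prime divisors of `X`. Then
`κ(X) ≥ ∑ i, lam i + big ≥ 0` if `r j + 1 ≤ ∑ i, w j i` for all `j`, and
`κ(X) ≥ D 0 + ∑ i, lam i + big` if moreover the sum of the weights `wt i` is greater than
`(D 0 + 1) * γ`; otherwise `κ(X) = -∞` and `K_X` is not pseudo-effective. -/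
theorem result {v q d : ℕ} (hd : 0 < d) (ℓ : Fin q → Fin (v + 1) → ℂ) (hI : Independent d ℓ)
    (hg : GeneralPosition ℓ) (hq : v + 1 ≤ q) (K : Type) [Field K] [Algebra ℂ K]
    (N l : ℕ) (E : Fin (l + 1) → IntermediateField ℂ K) (D : Fin (l + 1) → ℕ) (e lam : Fin l → ℕ)
    (c : ℕ) (r s : Fin c → ℕ) (y : Fin (N + 1) → K)
    (hy : IsCanonicalVariety y (D (Fin.last l) + ∑ j, r j)) (b : Fin (v + 1) → K)
    (hb : IsMap ℓ b (D 0)) (hE0 : E 0 = RF ℂ b)
    (hT : IsOrbifoldTower {P | IsPrimeDivisor y P} (fun _ => 0) E D e lam)
    (wt : Fin q → ℚ) (hwt : ∀ i, 0 ≤ wt i)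
    (hs : (((D 0 + 1) * (v - D 0 + d).choose (v - D 0) : ℕ) : ℚ) ≤ ∑ i, wt i)
    (hm : SmallMultiplicities y ℓ b wt ((v - D 0 + d).choose (v - D 0)))
    (w : ∀ j, Fin (s j) → ℚ) (hF : Fibres y (E (Fin.last l)) r s w) :
    Nonvanishing y (D (Fin.last l) + ∑ j, r j) (∑ i, lam i + big r s w) r s w ∧
      ((((D 0 + 1) * (v - D 0 + d).choose (v - D 0) : ℕ) : ℚ) < ∑ i, wt i →
        Nonvanishing y (D (Fin.last l) + ∑ j, r j) (D 0 + ∑ i, lam i + big r s w) r s w) := by
  obtain ⟨hl, hb0, htr⟩ := hb
  have hn : D (Fin.last l) + ∑ j, r j = D 0 + (∑ i, e i + ∑ j, r j) := by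
    rw [Pool.Agent.X180.TP.dims fun i => (hT.2 i).2.1, add_assoc]
  have hK : Algebra.trdeg ℂ K = (D 0 + (∑ i, e i + ∑ j, r j) : ℕ) := by
    rw [hy.2.1, hn]
  have h2 := fun (lam' : ℕ) (h0 : Pool.Agent.X180.Tow.HasForms (D 0 + (∑ i, e i + ∑ j, r j))
      {P | IsPrimeDivisor y P} (fun _ => 0) (RF ℂ b) (∑ i, e i + ∑ j, r j) lam') =>
    small_base hd hI hg hq hl hb0 htr hK hwt hs (fun P hP => hm P hP) h0
  refine ⟨?_, fun hs' => non_gen hy hT hF fun lam' h0 => ?_⟩
  · have h1 := non_gen (k := 0) hy hT hF fun lam' h0 => by
      rw [hE0] at h0
      rw [zero_add]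
      exact (h2 lam' h0).1
    rwa [zero_add] at h1
  · rw [hE0] at h0
    exact (h2 lam' h0).2 hs'

end Pool.Agent.Results.MP_23b606_ag.OrbifoldTowers
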